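import Pool.Agent.H484.AL.Stm

/-!
# AL-EXC3 (helper484): third exceptional set
-/

set_option autoImplicit false

open Finset
open scoped Classical

namespace Pool.Agent.H484.AL

/-- Markov's inequality. -/
theorem exc3_markov {β : Type*} (s : Finset β) (f : β → ℝ) (θ A : ℝ) (hf : ∀ b ∈ s, 0 ≤ f b)
    (hθ : 0 ≤ θ) (hA : 0 ≤ A) (h : ∑ b ∈ s, f b ≤ θ * A) :
    ((s.filter (fun b => θ < f b)).card : ℝ) ≤ A := by
  rcases hθ.eq_or_lt with h0 | h0
  · subst h0
    rw [zero_mul] at h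
    have h1 : ∑ b ∈ s, f b = 0 := le_antisymm h (Finset.sum_nonneg hf)
    have h2 := (Finset.sum_eq_zero_iff_of_nonneg hf).1 h1
    have h3 : s.filter (fun b => 0 < f b) = ∅ := by
      refine Finset.filter_eq_empty_iff.2 fun b hb => ?_
      rw [h2 b hb]
      exact lt_irrefl _
    rw [h3, Finset.card_empty, Nat.cast_zero]
    exact hA
  · have h1 : ((s.filter (fun b => θ < f b)).card : ℝ) * θ ≤ ∑ b ∈ s.filter (fun b => θ < f b), f b := by
      have := Finset.card_nsmul_le_sum (s.filter (fun b => θ < f b)) f θ fun b hb =>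
        (Finset.mem_filter.1 hb).2.le
      rwa [nsmul_eq_mul] at this
    have h2 : ∑ b ∈ s.filter (fun b => θ < f b), f b ≤ ∑ b ∈ s, f b :=
      Finset.sum_le_sum_of_subset_of_nonneg (Finset.filter_subset _ _) fun b hb _ => hf b hb
    have h3 : ((s.filter (fun b => θ < f b)).card : ℝ) * θ ≤ A * θ := by
      rw [mul_comm A]; linarith
    exact le_of_mul_le_mul_right h3 h0

theorem t_EXC3 (hCONF : S_CONF) (hCFN : S_CFN) : S_EXC3 := by
  intro e B g M a0 J t0 t1 α η hR h01 h1J hη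
  have he : 1 ≤ e := le_trans (by norm_num) hR.he
  have hB0 : (0 : ℝ) < B := by
    have := hR.hB
    have : 0 < B := by omega
    exact_mod_cast this
  have hB1 : (1 : ℝ) ≤ B := by
    have := hR.hB
    have : 1 ≤ B := by omega
    exact_mod_cast this
  have ht : (0 : ℝ) ≤ (t1 : ℝ) - t0 := by
    have : (t0 : ℝ) ≤ t1 := by exact_mod_cast h01
    linarith
  refine exc3_markov _ _ _ _ (fun b _ => ?_) (by positivity) (by positivity) ?_
  · unfold CF
    exact Finset.sum_nonneg fun z _ => by positivity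
  · unfold CF
    rw [Finset.sum_comm]
    have key : ∀ z ∈ (Om e J t0 t1 ×ˢ Om e J t0 t1).filter
        (fun z => conf e z.1 z.2 ∧ z.1.1 ≤ z.2.1),
        ∑ b : Fin e → Fin M, (B : ℝ) ^ z.1.1 *
          ((NN e g M a0 B α (fun i => (b i : ℕ)) z.1.1 z.1.2 : ℝ) *
            (NN e g M a0 B α (fun i => (b i : ℕ)) z.2.1 z.2.2 : ℝ)) ≤
        4 * 4 ^ e * (M : ℝ) ^ e / (B : ℝ) ^ t0 := by
      intro z hz
      obtain ⟨hz1, ⟨hne, hor⟩, hle⟩ := Finset.mem_filter.1 hz
      obtain ⟨hm1, hm2⟩ := Finset.mem_product.1 hz1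
      obtain ⟨ha1, ha2⟩ := Finset.mem_product.1 hm1
      obtain ⟨hb1, hb2⟩ := Finset.mem_product.1 hm2
      rw [Finset.mem_Ico] at ha1 hb1
      have h1 := hCONF e B g M a0 J α hR z.1.1 z.2.1 z.1.2 z.2.2 (by omega) (by omega) ha2 hb2
        (fun h => hne (Prod.ext h.1 h.2)) (Or.inr hor)
      rw [← Finset.mul_sum, le_div_iff₀ (by positivity)]
      have h2 : (B : ℝ) ^ t0 ≤ (B : ℝ) ^ z.2.1 := pow_le_pow_right₀ hB1 hb1.1
      have h3 : 0 ≤ ∑ b : Fin e → Fin M,
          ((NN e g M a0 B α (fun i => (b i : ℕ)) z.1.1 z.1.2 : ℝ) *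
            (NN e g M a0 B α (fun i => (b i : ℕ)) z.2.1 z.2.2 : ℝ)) :=
        Finset.sum_nonneg fun b _ => by positivity
      refine le_trans ?_ h1
      generalize (∑ b : Fin e → Fin M,
          ((NN e g M a0 B α (fun i => (b i : ℕ)) z.1.1 z.1.2 : ℝ) *
            (NN e g M a0 B α (fun i => (b i : ℕ)) z.2.1 z.2.2 : ℝ))) = w at *
      calc (B : ℝ) ^ z.1.1 * w * (B : ℝ) ^ t0 ≤ (B : ℝ) ^ z.1.1 * w * (B : ℝ) ^ z.2.1 :=
            mul_le_mul_of_nonneg_left h2 (by positivity)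
        _ = (B : ℝ) ^ z.1.1 * (B : ℝ) ^ z.2.1 * w := by ring
    refine (Finset.sum_le_sum key).trans ?_
    rw [Finset.sum_const, nsmul_eq_mul]
    have hc : (((Om e J t0 t1 ×ˢ Om e J t0 t1).filter
        (fun z => conf e z.1 z.2 ∧ z.1.1 ≤ z.2.1)).card : ℝ) ≤
        ((t1 : ℝ) - t0) ^ 2 * ((e : ℝ) + 1) * (2 * (J : ℝ)) ^ (2 * e - 1) := by
      have h1 := hCFN e J t0 t1 he
      have h2 : ((Om e J t0 t1 ×ˢ Om e J t0 t1).filter
          (fun z => conf e z.1 z.2 ∧ z.1.1 ≤ z.2.1)).card ≤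
          ((Om e J t0 t1 ×ˢ Om e J t0 t1).filter (fun z => conf e z.1 z.2)).card :=
        Finset.card_le_card (Finset.monotone_filter_right _ fun z _ h => h.1)
      have h3 : (((Om e J t0 t1 ×ˢ Om e J t0 t1).filter
          (fun z => conf e z.1 z.2 ∧ z.1.1 ≤ z.2.1)).card : ℝ) ≤
          (((t1 - t0) ^ 2 * (e + 1) * (2 * J) ^ (2 * e - 1) : ℕ) : ℝ) := by
        exact_mod_cast h2.trans h1
      rw [Nat.cast_mul, Nat.cast_mul, Nat.cast_pow, Nat.cast_sub h01, Nat.cast_pow] at h3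
      push_cast at h3
      exact h3
    refine (mul_le_mul_of_nonneg_right hc (by positivity)).trans (le_of_eq ?_)
    field_simp

end Pool.Agent.H484.AL
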