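import Pool.Agent.H484.AL.Stm

/-!
# AL-KAP (helper484): sizes of `kap`
-/

set_option autoImplicit false

open Finset

namespace Pool.Agent.H484.AL

theorem t_KAP : S_KAP := by
  intro e B g M a0 J α hR t j ht hj
  obtain ⟨he, hB, hJ, hg, hgB, hN, ha, hα⟩ := hR
  have hj' : ∀ i, 3 * J ≤ j i ∧ j i < 5 * J := fun i => by
    have := Fintype.mem_piFinset.1 hj i
    rwa [Finset.mem_Ico] at this
  have hs1 : e * (3 * J) ≤ ∑ i, j i := by
    have := Finset.card_nsmul_le_sum (Finset.univ : Finset (Fin e)) j (3 * J) fun i _ => (hj' i).1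
    rwa [Finset.card_univ, Fintype.card_fin, smul_eq_mul] at this
  have hs2 : ∑ i, j i ≤ e * (5 * J) := by
    have := Finset.sum_le_card_nsmul (Finset.univ : Finset (Fin e)) j (5 * J) fun i _ =>
      (hj' i).2.le
    rwa [Finset.card_univ, Fintype.card_fin, smul_eq_mul] at this
  unfold kap
  obtain ⟨x, hx⟩ : ∃ x, x = t + ∑ i, j i := ⟨_, rfl⟩
  rw [← hx]
  have heJ : 2 * J ≤ e * J := Nat.mul_le_mul_right J he
  have e1 : e * (3 * J) = 3 * (e * J) := by ring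
  have e2 : e * (5 * J) = 5 * (e * J) := by ring
  have e3 : 34 * e * J = 34 * (e * J) := by ring
  have e4 : 40 * e * J = 40 * (e * J) := by ring
  rw [e1] at hs1
  rw [e2] at hs2
  rw [e4] at hN
  rw [e3]
  have hB1 : 1 ≤ B := by omega
  have hpos : 0 < B ^ x := Nat.pow_pos (by omega)
  have h3 : B ^ (34 * (e * J)) ≤ g * M / B ^ x := by
    rw [Nat.le_div_iff_mul_le hpos, ← pow_add]
    exact (Nat.pow_le_pow_right hB1 (by omega)).trans hN
  have h1 : g * M / B ^ x * B ^ x ≤ g * M := Nat.div_mul_le_self _ _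
  obtain ⟨κ, hκ⟩ : ∃ κ, κ = g * M / B ^ x := ⟨_, rfl⟩
  rw [← hκ] at h1 h3 ⊢
  have hκ1 : 1 ≤ κ := le_trans (Nat.one_le_pow _ _ (by omega)) h3
  refine ⟨h1, ?_, h3, ?_⟩
  · have h4 := Nat.div_add_mod (g * M) (B ^ x)
    have h5 := Nat.mod_lt (g * M) hpos
    rw [← hκ] at h4
    have h6 : B ^ x ≤ κ * B ^ x := Nat.le_mul_of_pos_left _ hκ1
    have h7 : B ^ x * κ = κ * B ^ x := Nat.mul_comm _ _
    have h8 : 2 * κ * B ^ x = κ * B ^ x + κ * B ^ x := by ring
    omega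
  · have h4 : κ * B ^ (6 * J) ≤ g * M :=
      le_trans (Nat.mul_le_mul_left _ (Nat.pow_le_pow_right hB1 (by omega))) h1
    have h5 : 4 * B ^ (5 * J) * κ * (8 * g) ≤ 4 * (g * M) := by
      calc 4 * B ^ (5 * J) * κ * (8 * g) ≤ 4 * B ^ (5 * J) * κ * B ^ J := Nat.mul_le_mul_left _ hgB
        _ = 4 * (κ * B ^ (6 * J)) := by
          have : B ^ (6 * J) = B ^ (5 * J) * B ^ J := by rw [← pow_add]; congr 1; ring
          rw [this]; ring
        _ ≤ 4 * (g * M) := Nat.mul_le_mul_left _ h4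
    have h6 : 4 * g * (2 * (4 * B ^ (5 * J) * κ)) ≤ 4 * g * M := by
      calc 4 * g * (2 * (4 * B ^ (5 * J) * κ)) = 4 * B ^ (5 * J) * κ * (8 * g) := by ring
        _ ≤ 4 * (g * M) := h5
        _ = 4 * g * M := by ring
    have h7 : 2 * (4 * B ^ (5 * J) * κ) ≤ M := Nat.le_of_mul_le_mul_left h6 (by omega)
    have h8 : 0 < 4 * B ^ (5 * J) * κ := by
      have : 0 < B ^ (5 * J) := Nat.pow_pos (by omega)
      positivity
    omega

end Pool.Agent.H484.AL
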